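import Pool.Agent.Y262.EX.Def

/-!
# Project EX: statements
-/

set_option autoImplicit false

open Set Filter Topology MeasureTheory
open scoped ContDiff ComplexConjugate Real

noncomputable section

namespace Pool.Agent.Y262.EX

open Pool.Agent.Y262.EG

/-! ### Existence of the flow -/

/-- the superposition operator is smooth -/
def StNem : Prop :=
  ∀ (K E F : Type) [TopologicalSpace K] [CompactSpace K] [NormedAddCommGroup E] [NormedSpace ℝ E]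
    [NormedAddCommGroup F] [NormedSpace ℝ F] (X : E → F) (hX : ContDiff ℝ ∞ X),
    ContDiff ℝ ∞ (fun α : C(K, E) => (⟨fun t => X (α t), hX.continuous.comp α.continuous⟩ : C(K, F)))

/-- smooth local flows -/
def StLFl : Prop :=
  ∀ (O : Set Y) (X : Y → Y), IsOpen O → ContDiffOn ℝ ∞ X O → ∀ p ∈ O,
    ∃ (ε r : ℝ) (α : ℝ × Y → Y), 0 < ε ∧ 0 < r ∧ Metric.ball p r ⊆ O ∧
      ContDiffOn ℝ ∞ α (Ioo (-ε) ε ×ˢ Metric.ball p r) ∧
      ∀ t ∈ Ioo (-ε) ε, ∀ y ∈ Metric.ball p r, α (0, y) = y ∧ α (t, y) ∈ O ∧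
        HasDerivAt (fun τ => α (τ, y)) (X (α (t, y))) t

/-- `β` is an integral curve of `X` in `O` on the interval `(-ε, ε)` with `β 0 = p` -/
def Crv (O : Set Y) (X : Y → Y) (ε : ℝ) (p : Y) (β : ℝ → Y) : Prop :=
  β 0 = p ∧ ∀ t ∈ Ioo (-ε) ε, β t ∈ O ∧ HasDerivAt β (X (β t)) t

/-- geodesics exist for a uniform time -/
def StUnif : Prop :=
  ∀ (G : Type) [Group G] (Ω : Set ℂ) (a : G → ℂ → ℂ) (φ : ℂ → ℝ), Act G Ω a → Inva Ω φ a →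
    ∃ ε : ℝ, 0 < ε ∧ ∀ p ∈ YO Ω, ∃ β, Crv (YO Ω) (XX φ) ε p β

/-- uniform time implies completeness -/
def StExt : Prop :=
  ∀ (O : Set Y) (X : Y → Y), IsOpen O → ContDiffOn ℝ ∞ X O → ∀ ε : ℝ, 0 < ε →
    (∀ p ∈ O, ∃ β, Crv O X ε p β) → ∃ Fl : ℝ → Y → Y, (∀ p ∈ O, Fl 0 p = p) ∧
      ∀ p ∈ O, ∀ t, Fl t p ∈ O ∧ HasDerivAt (fun τ => Fl τ p) (X (Fl t p)) t

/-- complete flows are smooth -/
def StSmo : Prop :=
  ∀ (O : Set Y) (X : Y → Y), IsOpen O → ContDiffOn ℝ ∞ X O → ∀ Fl : ℝ → Y → Y,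
    (∀ p ∈ O, Fl 0 p = p) →
    (∀ p ∈ O, ∀ t, Fl t p ∈ O ∧ HasDerivAt (fun τ => Fl τ p) (X (Fl t p)) t) →
    ContDiffOn ℝ ∞ (fun a : ℝ × Y => Fl a.1 a.2) {a | a.2 ∈ O}

/-- existence of the geodesic flow -/
def StGeoEx : Prop :=
  ∀ (G : Type) [Group G] (Ω : Set ℂ) (a : G → ℂ → ℂ) (φ : ℂ → ℝ), Act G Ω a → Inva Ω φ a →
    ∃ Fl : ℝ → Y → Y, IsGeo Ω φ Fl

/-! ### Quotients -/

/-- the quotient by a properly discontinuous cocompact action -/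
def StTop : Prop :=
  ∀ (X G : Type) [TopologicalSpace X] [T2Space X] [LocallyCompactSpace X]
    [SecondCountableTopology X] [Group G] [MulAction G X], (∀ g : G, Continuous fun x : X => g • x) →
    (∀ K : Set X, IsCompact K → {g : G | ((fun x : X => g • x) '' K ∩ K).Nonempty}.Finite) →
    (∃ K : Set X, IsCompact K ∧ ∀ x : X, ∃ g : G, g • x ∈ K) →
    ∃ (Q : Type) (_ : MetricSpace Q) (_ : CompactSpace Q) (p : X → Q), Continuous p ∧ IsOpenMap p ∧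
      Function.Surjective p ∧ ∀ x y, p x = p y ↔ ∃ g : G, g • x = y

/-- the properties of the projection to the surface -/
structure PrM {G M : Type} [Group G] [TopologicalSpace M] (Ω : Set ℂ) (a : G → ℂ → ℂ)
    (pr : ℂ → M) : Prop where
  cont : ContinuousOn pr Ω
  opn : ∀ O : Set ℂ, IsOpen O → O ⊆ Ω → IsOpen (pr '' O)
  surj : pr '' Ω = univ
  rel : ∀ z ∈ Ω, ∀ w ∈ Ω, (pr z = pr w ↔ ∃ γ, a γ z = w)
  inj : ∀ z ∈ Ω, ∃ r : ℝ, 0 < r ∧ Metric.ball z r ⊆ Ω ∧ InjOn pr (Metric.ball z r)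
  conn : IsPreconnected (univ : Set M)

/-- the properties of the projection to the unit tangent bundle -/
structure PrP {G P : Type} [Group G] [TopologicalSpace P] (Ω : Set ℂ) (a : G → ℂ → ℂ)
    (q : Y → P) : Prop where
  cont : ContinuousOn q (YO Ω)
  opn : ∀ O : Set Y, IsOpen O → O ⊆ YO Ω → IsOpen (q '' O)
  surj : q '' YO Ω = univ
  rel : ∀ p ∈ YO Ω, ∀ p' ∈ YO Ω, (q p = q p' ↔ ∃ γ, a γ p.1 = p'.1 ∧
    Complex.exp (p'.2 * Complex.I) * ‖deriv (a γ) p.1‖ =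
      Complex.exp (p.2 * Complex.I) * deriv (a γ) p.1)

/-- existence of the surface -/
def StQM : Prop :=
  ∀ (G : Type) [Group G] (Ω : Set ℂ) (a : G → ℂ → ℂ), Act G Ω a →
    ∃ (M : Type) (_ : MetricSpace M) (_ : CompactSpace M) (pr : ℂ → M), PrM Ω a pr

/-- existence of the unit tangent bundle -/
def StQP : Prop :=
  ∀ (G : Type) [Group G] (Ω : Set ℂ) (a : G → ℂ → ℂ), Act G Ω a →
    (∀ γ, ∀ z ∈ Ω, deriv (a γ) z ≠ 0) →
    ∃ (P : Type) (_ : MetricSpace P) (_ : CompactSpace P) (q : Y → P), PrP Ω a q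

/-- the unit tangent bundle of the quotient -/
def StQU : Prop :=
  ∀ (G : Type) [Group G] (Ω : Set ℂ) (a : G → ℂ → ℂ) (φ : ℂ → ℝ) (M P : Type) [MetricSpace M]
    [CompactSpace M] [MetricSpace P] [CompactSpace P] (pr : ℂ → M) (q : Y → P), Act G Ω a →
    Inva Ω φ a → PrM Ω a pr → PrP Ω a q → IsUT Ω φ pr q

/-! ### Measures -/

/-- a measure which is compatible with the identifications descends -/
def StEtale : Prop :=
  ∀ (X Q : Type) [TopologicalSpace X] [PolishSpace X] [MeasurableSpace X] [BorelSpace X]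
    [MetricSpace Q] [MeasurableSpace Q] [BorelSpace Q] (O : Set X) (q : X → Q) (ν : Measure X),
    IsOpen O → ContinuousOn q O → q '' O = univ →
    (∀ p ∈ O, ∃ U : Set X, IsOpen U ∧ p ∈ U ∧ U ⊆ O ∧ InjOn q U) →
    (∀ B B' : Set X, MeasurableSet B → MeasurableSet B' → B ⊆ O → B' ⊆ O → InjOn q B → InjOn q B' →
      q '' B = q '' B' → ν B = ν B') →
    ∃ m : Measure Q, ∀ B : Set X, MeasurableSet B → B ⊆ O → InjOn q B → m (q '' B) = ν B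

/-- existence of the Liouville measure -/
def StLiouEx : Prop :=
  ∀ (M P : Type) [MetricSpace M] [CompactSpace M] [MetricSpace P] [CompactSpace P]
    [MeasurableSpace P] [BorelSpace P] (Ω : Set ℂ) (φ : ℂ → ℝ) (pr : ℂ → M) (q : Y → P),
    IsUT Ω φ pr q → ∃ m : Measure P, IsLiou Ω φ q m

/-- existence of the area -/
def StAreaEx : Prop :=
  ∀ (M P : Type) [MetricSpace M] [CompactSpace M] [MetricSpace P] [CompactSpace P]
    [MeasurableSpace M] [BorelSpace M] (Ω : Set ℂ) (φ : ℂ → ℝ) (pr : ℂ → M) (q : Y → P),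
    IsUT Ω φ pr q → ∃ μ : Measure M, IsArea Ω φ pr μ

/-! ### The data of project QE -/

/-- the reflection of the surface -/
structure Rfl {M : Type} (Ω : Set ℂ) (φ : ℂ → ℝ) (pr : ℂ → M) (σ : M → M) : Prop where
  maps : ∀ z ∈ Ω, conj z ∈ Ω
  inv : ∀ z ∈ Ω, φ (conj z) = φ z
  rfl' : ∀ z ∈ Ω, σ (pr z) = pr (conj z)

/-- existence of the reflection -/
def StSigEx : Prop :=
  ∀ (G M : Type) [Group G] [MetricSpace M] (Ω : Set ℂ) (a : G → ℂ → ℂ) (φ : ℂ → ℝ) (pr : ℂ → M),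
    PrM Ω a pr → (∀ z ∈ Ω, conj z ∈ Ω) → (∀ z ∈ Ω, φ (conj z) = φ z) →
    (∀ γ, ∃ γ', ∀ z ∈ Ω, conj (a γ z) = a γ' (conj z)) → ∃ σ : M → M, Rfl Ω φ pr σ

/-- the data of the atlas which is given by finitely many open sets on which `pr` is injective -/
def mkD {M : Type} (φ : ℂ → ℝ) (pr : ℂ → M) (N : ℕ) (T : Fin N → Set ℂ) :
    Pool.Agent.Y262.QE.Data M where
  N := N
  U := fun i => pr '' T i
  φ := fun i => Function.invFunOn pr (T i)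
  ψ := fun _ => pr
  A := fun _ z => Real.exp (φ z) • ContinuousLinearMap.id ℝ ℂ

/-- an atlas which contains the two rectangles of the cylinder -/
structure Atl {M : Type} (Ω : Set ℂ) (pr : ℂ → M) (L : ℝ) (N : ℕ) (T : Fin N → Set ℂ) : Prop where
  opn : ∀ i, IsOpen (T i)
  sub : ∀ i, T i ⊆ Ω
  inj : ∀ i, InjOn pr (T i)
  cov : ∀ x, ∃ i, x ∈ pr '' T i
  rec' : ∀ b : ℝ, b = -π ∨ b = 0 → ∃ i, T i = Pool.Agent.Y262.QE.Rec L b

/-- existence of an atlas -/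
def StAtl : Prop :=
  ∀ (M P : Type) [MetricSpace M] [CompactSpace M] [MetricSpace P] [CompactSpace P]
    (Ω : Set ℂ) (φ : ℂ → ℝ) (pr : ℂ → M) (q : Y → P)
    (L δ δ' κ C : ℝ) (g : ℝ → ℝ), IsUT Ω φ pr q → Cls Ω φ pr L δ δ' κ C g →
    ∃ (N : ℕ) (T : Fin N → Set ℂ), Atl Ω pr L N T

/-- the atlas defines a Riemannian surface -/
def StSurf : Prop :=
  ∀ (M P : Type) [MetricSpace M] [CompactSpace M] [MetricSpace P] [CompactSpace P]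
    [MeasurableSpace M] [BorelSpace M] (Ω : Set ℂ) (φ : ℂ → ℝ) (pr : ℂ → M) (q : Y → P)
    (μ : Measure M) (L : ℝ) (N : ℕ) (T : Fin N → Set ℂ), IsUT Ω φ pr q → IsArea Ω φ pr μ →
    Atl Ω pr L N T → (mkD φ pr N T).IsSurf μ ∧ Compat (mkD φ pr N T) Ω φ pr ∧
      ∀ i, (mkD φ pr N T).T i = T i

/-- the flat cylinder and the reflection in the atlas -/
def StCyl : Prop :=
  ∀ (M P : Type) [MetricSpace M] [CompactSpace M] [MetricSpace P] [CompactSpace P]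
    [MeasurableSpace M] [BorelSpace M] (Ω : Set ℂ) (φ : ℂ → ℝ) (pr : ℂ → M) (q : Y → P)
    (μ : Measure M) (L δ δ' κ C : ℝ) (g : ℝ → ℝ) (σ : M → M) (N : ℕ) (T : Fin N → Set ℂ),
    IsUT Ω φ pr q → Cls Ω φ pr L δ δ' κ C g → IsArea Ω φ pr μ → Rfl Ω φ pr σ → Atl Ω pr L N T →
    (∀ i, (mkD φ pr N T).T i = T i) →
    ∃ Φ : ℂ → M, (mkD φ pr N T).IsCyl μ L Φ σ ∧ ∀ z ∈ Pool.Agent.Y262.QE.Strip L, Φ z = pr z

/-- an atlas as in project QE -/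
def StData : Prop :=
  ∀ (M P : Type) [MetricSpace M] [CompactSpace M] [MetricSpace P] [CompactSpace P]
    [MeasurableSpace M] [BorelSpace M] (Ω : Set ℂ) (φ : ℂ → ℝ) (pr : ℂ → M) (q : Y → P)
    (μ : Measure M) (L δ δ' κ C : ℝ) (g : ℝ → ℝ) (σ : M → M), IsUT Ω φ pr q →
    Cls Ω φ pr L δ δ' κ C g → IsArea Ω φ pr μ → Rfl Ω φ pr σ →
    ∃ (D : Pool.Agent.Y262.QE.Data M) (Φ : ℂ → M), D.IsSurf μ ∧ Compat D Ω φ pr ∧
      D.IsCyl μ L Φ σ ∧ ∀ z ∈ Pool.Agent.Y262.QE.Strip L, Φ z = pr z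

/-- a function for the conformal change -/
def StHex : Prop :=
  ∀ (M P : Type) [MetricSpace M] [CompactSpace M] [MetricSpace P] [CompactSpace P] (Ω : Set ℂ)
    (φ : ℂ → ℝ) (pr : ℂ → M) (q : Y → P) (L δ δ' κ C : ℝ) (g : ℝ → ℝ) (σ : M → M), IsUT Ω φ pr q →
    Cls Ω φ pr L δ δ' κ C g → Rfl Ω φ pr σ →
    ∃ (δ'' : ℝ) (h : M → ℝ), Cls Ω φ pr L δ δ'' κ C g ∧ Continuous h ∧ (∀ x, 0 ≤ h x) ∧
      (∀ x, h (σ x) = h x) ∧ ContDiffOn ℝ ∞ (fun z => h (pr z)) Ω ∧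
      (∀ z ∈ Stp L δ'', h (pr z) = 0) ∧ ∃ x, h x ≠ 0

/-! ### The group -/

/-- Moebius transformations -/
def StMob : Prop :=
  (∀ (γ : Gq) (w : ℂ), 0 < w.im → (m21 γ : ℂ) * w + m22 γ ≠ 0 ∧
    (mob γ w).im = w.im / Complex.normSq ((m21 γ : ℂ) * w + m22 γ) ∧ 0 < (mob γ w).im ∧
    HasDerivAt (mob γ) (1 / ((m21 γ : ℂ) * w + m22 γ) ^ 2) w ∧
    ∀ γ' : Gq, mob (γ' * γ) w = mob γ' (mob γ w)) ∧
  (∀ w : ℂ, mob 1 w = w) ∧ ∀ γ : Gq, m11 γ * m22 γ - m12 γ * m21 γ = 1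

/-- the coordinate change between the strip and the half plane -/
def StW : Prop :=
  0 < L0 ∧ 0 < lam ∧ (∀ z ∈ Om, 0 < (W z).im ∧ Wi (W z) = z) ∧
  (∀ w : ℂ, 0 < w.im → Wi w ∈ Om ∧ W (Wi w) = w) ∧
  (∀ z, (W z).re = Real.exp (lam * z.im) * Real.sin (lam * (z.re - L0 / 2)) ∧
    (W z).im = Real.exp (lam * z.im) * Real.cos (lam * (z.re - L0 / 2)) ∧
    W (z + 2 * π * Complex.I) = ((7 + 4 * Real.sqrt 3) ^ 2 : ℝ) * W z ∧
    W (conj z) = (conj (W z))⁻¹ ∧ HasDerivAt W (-(Complex.I * lam) * W z) z) ∧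
  (∀ w : ℂ, 0 < w.im → HasDerivAt Wi (Complex.I / (lam * w)) w) ∧
  Om = {z | |lam * (z.re - L0 / 2)| < π / 2} ∧
  ∀ z ∈ Om, (z ∈ Stp L0 (3 / 2 * L0) ↔ |(W z).re| < (W z).im)

/-- the action on the strip -/
def StAc : Prop :=
  (∀ (γ : Gq), ∀ z ∈ Om, ac γ z ∈ Om ∧ W (ac γ z) = mob γ (W z) ∧
    (∀ γ' : Gq, ac (γ' * γ) z = ac γ' (ac γ z)) ∧ DifferentiableAt ℂ (ac γ) z ∧
    deriv (ac γ) z ≠ 0 ∧ F0 (ac γ z).re + Real.log ‖deriv (ac γ) z‖ = F0 z.re) ∧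
  ∀ z ∈ Om, ac 1 z = z

/-- the norm form is anisotropic -/
def StAnis : Prop :=
  ∀ a b c d : ℤ, a ^ 2 - 12 * b ^ 2 + 4 * c ^ 2 - 12 * d ^ 2 = 0 → a = 0 ∧ b = 0 ∧ c = 0 ∧ d = 0

/-- the group acts freely -/
def StFree : Prop :=
  ∀ (γ : Gq), ∀ z ∈ Om, ac γ z = z → ∀ w ∈ Om, ac γ w = w

/-- the group acts properly discontinuously -/
def StDisc : Prop :=
  ∀ K : Set ℂ, IsCompact K → K ⊆ Om → {γ : Gq | (ac γ '' K ∩ K).Nonempty}.Finite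

/-- the matrix entries of the real quaternion `a + 2 b I + 2 c J + 2 d I J` -/
def qm (a b c d : ℝ) : Matrix (Fin 2) (Fin 2) ℝ :=
  !![a + 2 * Real.sqrt 3 * b, 2 * c + 2 * Real.sqrt 3 * d;
    -(2 * c) + 2 * Real.sqrt 3 * d, a - 2 * Real.sqrt 3 * b]

/-- Minkowski's theorem for the order -/
def StMink : Prop :=
  ∃ C : ℝ, ∀ g : Matrix (Fin 2) (Fin 2) ℝ, g.det = 1 → ∃ a b c d : ℤ,
    ¬ (a = 0 ∧ b = 0 ∧ c = 0 ∧ d = 0) ∧ ∀ i j, |(qm a b c d * g) i j| ≤ C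

/-- there are finitely many elements of bounded norm modulo the group -/
def StFin : Prop :=
  ∀ N : ℕ, ∃ S : Finset (ℤ × ℤ × ℤ × ℤ),
    (∀ x ∈ S, (qm x.1 x.2.1 x.2.2.1 x.2.2.2).det ≠ 0) ∧
    ∀ a b c d : ℤ, a ^ 2 - 12 * b ^ 2 + 4 * c ^ 2 - 12 * d ^ 2 ≠ 0 →
      |a ^ 2 - 12 * b ^ 2 + 4 * c ^ 2 - 12 * d ^ 2| ≤ (N : ℤ) →
      ∃ x ∈ S, ∃ γ : Gq, qm a b c d = qm x.1 x.2.1 x.2.2.1 x.2.2.2 * qm γ.a γ.b γ.c γ.d

/-- the quotient of `SL (2, ℝ)` by the group is compact -/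
def StBdd : Prop :=
  ∃ R : ℝ, ∀ g : Matrix (Fin 2) (Fin 2) ℝ, g.det = 1 → ∃ γ : Gq,
    ∀ i j, |(qm γ.a γ.b γ.c γ.d * g) i j| ≤ R

/-- the action on the strip is cocompact -/
def StCpt : Prop :=
  ∃ K : Set ℂ, IsCompact K ∧ K ⊆ Om ∧ ∀ z ∈ Om, ∃ γ : Gq, ac γ z ∈ K

/-- the action on the strip -/
def StActE : Prop := Act Gq Om ac

/-- the collar is embedded -/
def StCol : Prop :=
  (∀ z ∈ Stp L0 (3 / 2 * L0), ∀ γ : Gq, ac γ z ∈ Stp L0 (3 / 2 * L0) →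
    ∃ n : ℤ, ∀ w ∈ Om, ac γ w = w + n * (2 * π * Complex.I)) ∧
  ∃ γ : Gq, ∀ w ∈ Om, ac γ w = w + 2 * π * Complex.I

/-- the reflection normalizes the group -/
def StConj : Prop :=
  (∀ z ∈ Om, conj z ∈ Om) ∧ ∀ γ : Gq, ∃ γ' : Gq, (∀ z ∈ Om, conj (ac γ z) = ac γ' (conj z))

/-- existence of the profile -/
def StProf : Prop := ∃ (g : ℝ → ℝ) (c1 C : ℝ), Prof g c1 C

/-- local form of the metric -/
def StPhi1 : Prop :=
  ∀ (g : ℝ → ℝ) (c1 C : ℝ), Prof g c1 C →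
    (∀ (γ : Gq), ∀ z ∈ Om, ac γ z ∈ Stp L0 (3 / 2 * L0) →
      phi g c1 z = F0 z.re + g (ac γ z).re - F0 (ac γ z).re) ∧
    (∀ z ∈ Stp L0 (3 / 2 * L0), phi g c1 z = g z.re) ∧
    (∀ z ∈ Om, (∀ γ : Gq, ac γ z ∉ Stp L0 (1 / 2 * L0)) → phi g c1 z = F0 z.re + c1) ∧
    ∀ z ∈ Om, (∀ γ : Gq, ac γ z ∉ Stp L0 (3 / 2 * L0)) → ∀ᶠ w in 𝓝 z, phi g c1 w = F0 w.re + c1

/-- the metric is smooth and invariant -/
def StPhi2 : Prop :=
  ∀ (g : ℝ → ℝ) (c1 C : ℝ), Prof g c1 C → Inva Om (phi g c1) ac ∧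
    ∀ z ∈ Om, phi g c1 (conj z) = phi g c1 z

/-- the curvature of the metric -/
def StPhi3 : Prop :=
  ∀ (g : ℝ → ℝ) (c1 C : ℝ), Prof g c1 C →
    (∀ z ∈ Stp L0 (3 / 2 * L0), curv (phi g c1) z =
      -(Real.exp (-2 * g z.re) * deriv (deriv g) z.re)) ∧
    ∀ z ∈ Om, (∀ γ : Gq, ac γ z ∉ Stp L0 (1 / 2 * L0)) →
      curv (phi g c1) z = -(lam ^ 2 * Real.exp (-2 * c1))

/-- the surface belongs to the class -/
def StClsE : Prop :=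
  ∀ (g : ℝ → ℝ) (c1 C : ℝ), Prof g c1 C → ∀ (M P : Type) [MetricSpace M] [CompactSpace M]
    [MetricSpace P] [CompactSpace P] (pr : ℂ → M) (q : Y → P), PrM Om ac pr →
    IsUT Om (phi g c1) pr q →
    ∃ C' : ℝ, Cls Om (phi g c1) pr L0 (1 / 2 * L0) (3 / 2 * L0) (lam ^ 2 * Real.exp (-2 * c1)) C' g

end Pool.Agent.Y262.EX
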