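import Pool.Agent.Y262.EX.All
import Pool.Agent.Y257.EG.Et

/-!
# Projects EG and EX: ergodicity and the weak form of the final theorem
-/

set_option autoImplicit false

noncomputable section

namespace Pool.Agent.Y262.EX

open Pool.Agent.Y262.EG

theorem tEt : StEt := Pool.Agent.Y257.EG2.et tGerm

theorem tLiouUp : StLiouUp := Pool.Agent.Y257.EG2.liouUp tUniq tFrame tCoc

/-- the geodesic flow of every surface of the class is ergodic -/
theorem ergodic : StErg := tErg tEt tLiouUp

theorem tLiouEx : StLiouEx := Pool.Agent.Y80.EX.liouEx Pool.Agent.Y749.EX.etale tFrame tEt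

theorem concl : Concl := final_of tEt

end Pool.Agent.Y262.EX
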