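import Pool.Agent.Y262.EX.Final
import Pool.Agent.Y262.EG.Pre
import Pool.Agent.Y257.EG.Liou
import Pool.Agent.Y797.EX.LFl
import Pool.Agent.Y700.EX.Unif
import Pool.Agent.Y498.EX.Ext
import Pool.Agent.Y115.EX.Smo
import Pool.Agent.Y85.EX.GeoEx
import Pool.Agent.Y749.EX.Top
import Pool.Agent.Y749.EX.Etale
import Pool.Agent.Y338.EX.QM
import Pool.Agent.Y848.EX.QP
import Pool.Agent.Y145.EX.QU
import Pool.Agent.Y145.EX.WT
import Pool.Agent.Y80.EX.Exist
import Pool.Agent.Y658.EX.Sig
import Pool.Agent.Y838.EX.Atl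
import Pool.Agent.Y838.EX.Surf
import Pool.Agent.Y838.EX.Hex
import Pool.Agent.Y46.EX.Cyl
import Pool.Agent.Y117.EX.Grp
import Pool.Agent.Y592.EX.Anis
import Pool.Agent.Y837.EX.Disc
import Pool.Agent.Y426.EX.Mink
import Pool.Agent.Y426.EX.Fin
import Pool.Agent.Y925.EX.Cpt
import Pool.Agent.Y925.EX.ActE
import Pool.Agent.Y166.EX.COL
import Pool.Agent.Y61.EX.Prof
import Pool.Agent.Y868.EX.Phi1
import Pool.Agent.Y868.EX.ClsE
import Pool.Agent.Y794.EX.Phi2
import Pool.Agent.Y993.EX.Phi3

/-!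
# Project EX: assembly

The proofs of the parts are by helper797 (local flows), helper380 (superposition operators, an
alternative route), helper700 (uniform time), helper498 (completeness), helper115 (smoothness of
flows), helper85 (geodesic flow), helper749 (quotients, descent of measures), helper338 (surface),
helper848 (unit tangent bundle), helper145 (unit tangent bundle, coordinate change), helper80
(Liouville measure and area), helper658 (reflection), helper838 (atlas, function for the conformal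
change), helper46 (flat cylinder), helper117 (Moebius transformations, action, freeness, reflection),
helper592 (anisotropy, boundedness), helper837 (discreteness), helper426 (Minkowski, finiteness),
helper925 (cocompactness), helper166 (collar), helper61 (profile), helper868 (metric, class),
helper794 (smoothness and invariance), helper993 (curvature).
-/

set_option autoImplicit false

open Set Filter Topology MeasureTheory
open scoped ContDiff ComplexConjugate Real

noncomputable section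

namespace Pool.Agent.Y262.EX

open Pool.Agent.Y262.EG

theorem tW : StW := Pool.Agent.Y145.EX.wT

theorem tMob : StMob := Pool.Agent.Y117.EX.mobT

theorem tAc : StAc := Pool.Agent.Y117.EX.acT tMob tW

theorem tDisc : StDisc := Pool.Agent.Y837.EX.discT tMob tW tAc

theorem tAct : StActE := Pool.Agent.Y925.EX.actE tW tAc (Pool.Agent.Y117.EX.freeT tMob tW tAc) tDisc
  (Pool.Agent.Y925.EX.cptT tMob tW tAc (Pool.Agent.Y592.EX.bdd Pool.Agent.Y592.EX.anis
    Pool.Agent.Y426.EX.mink Pool.Agent.Y426.EX.finT))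

theorem tCol : StCol := Pool.Agent.Y166.EX.COL.colT tMob tW tAc Pool.Agent.Y592.EX.anis

theorem tConj : StConj := Pool.Agent.Y117.EX.conjT tMob tW tAc

theorem tProf : StProf := Pool.Agent.Y61.EX.prof tW

theorem tPhi1 : StPhi1 := Pool.Agent.Y868.EX.phi1 tW tAc tDisc tCol

theorem tPhi2 : StPhi2 := Pool.Agent.Y794.EX.phi2 tW tAc tConj tPhi1

theorem tPhi3 : StPhi3 := Pool.Agent.Y993.EX.phi3 tW tAc tGerm tPhi1 tPhi2

theorem tClsE : StClsE := Pool.Agent.Y868.EX.clsE tW tAc tDisc tCol tInv tPhi1 tPhi3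

theorem tLFl : StLFl := Pool.Agent.Y797.EX.lfl

theorem tGeo : StGeoEx := Pool.Agent.Y85.EX.geoEx (Pool.Agent.Y700.EX.unif tLFl tFrame tGerm)
  Pool.Agent.Y498.EX.ext (Pool.Agent.Y115.EX.smo tLFl) tFrame

theorem tData : StData := by
  intro M P _ _ _ _ _ _ Ω φ pr q μ L δ δ' κ C g σ hUT hC hA hR
  obtain ⟨N, T, hT⟩ := Pool.Agent.Y838.EX.atl M P Ω φ pr q L δ δ' κ C g hUT hC
  obtain ⟨hS, hComp, hT'⟩ := Pool.Agent.Y838.EX.surf M P Ω φ pr q μ L N T hUT hA hT
  obtain ⟨Φ, hCyl, hΦ⟩ := Pool.Agent.Y46.EX.cyl M P Ω φ pr q μ L δ δ' κ C g σ N T hUT hC hA hR hT hT'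
  exact ⟨_, Φ, hS, hComp, hCyl, hΦ⟩

theorem final_of (et : StEt) : Concl := final tProf tAct tPhi1 tPhi2
  (Pool.Agent.Y338.EX.qM Pool.Agent.Y749.EX.top) (Pool.Agent.Y848.EX.qP Pool.Agent.Y749.EX.top)
  Pool.Agent.Y145.EX.qU tConj tClsE Pool.Agent.Y658.EX.sigEx Pool.Agent.Y838.EX.hex
  (Pool.Agent.Y80.EX.areaEx Pool.Agent.Y749.EX.etale) tData
  (Pool.Agent.Y80.EX.liouEx Pool.Agent.Y749.EX.etale tFrame et) tGeo tUTs tFam
  (tErg et (Pool.Agent.Y257.EG2.liouUp tUniq tFrame tCoc))

end Pool.Agent.Y262.EX
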