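import Pool.Agent.Y262.EG.Stm

/-!
# Project EX: an explicit surface of the class `Cls`

The group of the norm one elements of the order `ℤ + 2ℤI + 2ℤJ + 2ℤIJ` of the quaternion algebra with
`I² = 3`, `J² = -1`, its action on a strip, and the metric.
-/

set_option autoImplicit false

open Set Filter Topology MeasureTheory
open scoped ContDiff ComplexConjugate Real

noncomputable section

namespace Pool.Agent.Y262.EX

open Pool.Agent.Y262.EG

/-- the quaternion `a + 2 b I + 2 c J + 2 d I J` of norm one -/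
@[ext]
structure Gq where
  a : ℤ
  b : ℤ
  c : ℤ
  d : ℤ
  nrm : a ^ 2 - 12 * b ^ 2 + 4 * c ^ 2 - 12 * d ^ 2 = 1

instance : One Gq := ⟨⟨1, 0, 0, 0, by norm_num⟩⟩

instance : Mul Gq := ⟨fun x y =>
  ⟨x.a * y.a + 12 * (x.b * y.b) - 4 * (x.c * y.c) + 12 * (x.d * y.d),
    x.a * y.b + x.b * y.a + 2 * (x.c * y.d) - 2 * (x.d * y.c),
    x.a * y.c + x.c * y.a + 6 * (x.b * y.d - x.d * y.b),
    x.a * y.d + x.d * y.a + 2 * (x.b * y.c - x.c * y.b), by
      have h1 := x.nrm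
      have h2 := y.nrm
      have h3 : (x.a ^ 2 - 12 * x.b ^ 2 + 4 * x.c ^ 2 - 12 * x.d ^ 2) *
        (y.a ^ 2 - 12 * y.b ^ 2 + 4 * y.c ^ 2 - 12 * y.d ^ 2) = 1 := by rw [h1, h2]; norm_num
      linear_combination h3⟩⟩

instance : Inv Gq := ⟨fun x => ⟨x.a, -x.b, -x.c, -x.d, by have h := x.nrm; linear_combination h⟩⟩

@[simp] lemma one_a : (1 : Gq).a = 1 := rfl
@[simp] lemma one_b : (1 : Gq).b = 0 := rfl
@[simp] lemma one_c : (1 : Gq).c = 0 := rfl
@[simp] lemma one_d : (1 : Gq).d = 0 := rfl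
@[simp] lemma mul_a (x y : Gq) : (x * y).a =
  x.a * y.a + 12 * (x.b * y.b) - 4 * (x.c * y.c) + 12 * (x.d * y.d) := rfl
@[simp] lemma mul_b (x y : Gq) : (x * y).b =
  x.a * y.b + x.b * y.a + 2 * (x.c * y.d) - 2 * (x.d * y.c) := rfl
@[simp] lemma mul_c (x y : Gq) : (x * y).c =
  x.a * y.c + x.c * y.a + 6 * (x.b * y.d - x.d * y.b) := rfl
@[simp] lemma mul_d (x y : Gq) : (x * y).d =
  x.a * y.d + x.d * y.a + 2 * (x.b * y.c - x.c * y.b) := rfl
@[simp] lemma inv_a (x : Gq) : (x⁻¹).a = x.a := rfl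
@[simp] lemma inv_b (x : Gq) : (x⁻¹).b = -x.b := rfl
@[simp] lemma inv_c (x : Gq) : (x⁻¹).c = -x.c := rfl
@[simp] lemma inv_d (x : Gq) : (x⁻¹).d = -x.d := rfl

instance : Group Gq where
  mul_assoc x y z := by ext <;> simp <;> ring
  one_mul x := by ext <;> simp
  mul_one x := by ext <;> simp
  inv_mul_cancel x := by
    ext
    · have h := x.nrm
      simp
      linear_combination h
    all_goals (simp; ring)

/-- the entries of the matrix of a quaternion -/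
def m11 (γ : Gq) : ℝ := γ.a + 2 * Real.sqrt 3 * γ.b
/-- the upper right entry -/
def m12 (γ : Gq) : ℝ := 2 * γ.c + 2 * Real.sqrt 3 * γ.d
/-- the lower left entry -/
def m21 (γ : Gq) : ℝ := -(2 * γ.c) + 2 * Real.sqrt 3 * γ.d
/-- the lower right entry -/
def m22 (γ : Gq) : ℝ := γ.a - 2 * Real.sqrt 3 * γ.b

/-- the action on the upper half plane -/
def mob (γ : Gq) (w : ℂ) : ℂ := (m11 γ * w + m12 γ) / (m21 γ * w + m22 γ)

/-- the length of the flat cylinder -/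
def L0 : ℝ := π ^ 2 / (8 * Real.log (7 + 4 * Real.sqrt 3))

/-- the ratio of the coordinates, `λ = log (7 + 4 √3) / π` -/
def lam : ℝ := π / (8 * L0)

/-- the strip which is the universal covering -/
def Om : Set ℂ := {z | -(7 / 2 * L0) < z.re ∧ z.re < 9 / 2 * L0}

/-- the conformal map of the strip to the upper half plane -/
def W (z : ℂ) : ℂ := Complex.I * Complex.exp (-(Complex.I * lam * (z - L0 / 2)))

/-- its inverse -/
def Wi (w : ℂ) : ℂ := L0 / 2 + Complex.I / lam * Complex.log (-(Complex.I * w))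

/-- the action of the group on the strip -/
def ac (γ : Gq) (z : ℂ) : ℂ := Wi (mob γ (W z))

/-- the hyperbolic metric of the strip is `exp (2 F0 (Re z)) |dz|²` up to a constant factor -/
def F0 (x : ℝ) : ℝ := -Real.log (Real.cos (lam * (x - L0 / 2)))

/-- the profile of the metric near the flat cylinder -/
structure Prof (g : ℝ → ℝ) (c1 C : ℝ) : Prop where
  smooth : ContDiffOn ℝ ∞ g (Ioo (-(7 / 2 * L0)) (9 / 2 * L0))
  flat : ∀ x, 0 ≤ x → x ≤ L0 → g x = 0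
  hyp : ∀ x ∈ Ioo (-(7 / 2 * L0)) (9 / 2 * L0), L0 ≤ |x - L0 / 2| → g x = F0 x + c1
  cvx : ∀ x ∈ Ioo (-(7 / 2 * L0)) (9 / 2 * L0), 0 ≤ deriv (deriv g) x
  zero : ∀ x ∈ Ioo (-(7 / 2 * L0)) (9 / 2 * L0), deriv (deriv g) x = 0 → 0 ≤ x ∧ x ≤ L0
  der : ∀ x, |x - L0 / 2| ≤ 2 * L0 →
    |deriv (deriv (deriv g)) x| ≤ C * (deriv (deriv g) x) ^ (39 / 40 : ℝ)

/-- the metric on the strip: hyperbolic (up to a constant factor) outside the images of the collar,
`exp (2 g (Re z)) |dz|²` in the collar -/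
def phi (g : ℝ → ℝ) (c1 : ℝ) (z : ℂ) : ℝ := by
  classical
  exact if h : ∃ γ : Gq, ac γ z ∈ Stp L0 (3 / 2 * L0) then
    F0 z.re + g (ac h.choose z).re - F0 (ac h.choose z).re else F0 z.re + c1

/-- a group of holomorphic automorphisms of the domain `Ω` which acts freely (elements with a fixed
point act trivially), properly discontinuously and cocompactly -/
structure Act (G : Type) [Group G] (Ω : Set ℂ) (a : G → ℂ → ℂ) : Prop where
  opn : IsOpen Ω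
  conn : IsPreconnected Ω
  ne : Ω.Nonempty
  maps : ∀ γ, ∀ z ∈ Ω, a γ z ∈ Ω
  one : ∀ z ∈ Ω, a 1 z = z
  mul : ∀ γ γ', ∀ z ∈ Ω, a (γ * γ') z = a γ (a γ' z)
  hol : ∀ γ, DifferentiableOn ℂ (a γ) Ω
  free : ∀ γ, ∀ z ∈ Ω, a γ z = z → ∀ w ∈ Ω, a γ w = w
  fin : ∀ K : Set ℂ, IsCompact K → K ⊆ Ω → {γ | (a γ '' K ∩ K).Nonempty}.Finite
  cpt : ∃ K : Set ℂ, IsCompact K ∧ K ⊆ Ω ∧ ∀ z ∈ Ω, ∃ γ, a γ z ∈ K

/-- the metric `exp (2 φ) |dz|²` is invariant under the group -/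
def Inva {G : Type} (Ω : Set ℂ) (φ : ℂ → ℝ) (a : G → ℂ → ℂ) : Prop :=
  ContDiffOn ℝ ∞ φ Ω ∧ ∀ γ, ∀ z ∈ Ω, deriv (a γ) z ≠ 0 ∧
    φ (a γ z) + Real.log ‖deriv (a γ) z‖ = φ z

/-- the area of a surface which is covered by `Ω` -/
def IsArea {M : Type} [MeasurableSpace M] (Ω : Set ℂ) (φ : ℂ → ℝ) (pr : ℂ → M) (μ : Measure M) :
    Prop :=
  ∀ B : Set ℂ, MeasurableSet B → B ⊆ Ω → InjOn pr B →
    μ (pr '' B) = ∫⁻ z in B, ENNReal.ofReal (Real.exp (2 * φ z))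

end Pool.Agent.Y262.EX
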