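import Pool.Agent.Y262.EX.Stm
import Pool.Agent.Y262.QE.All

/-!
# Project EX: the final assembly
-/

set_option autoImplicit false

open Set Filter Topology MeasureTheory
open scoped ContDiff ComplexConjugate Real

noncomputable section

namespace Pool.Agent.Y262.EX

open Pool.Agent.Y262.EG Pool.Agent.Y262.QE

/-- the geodesic flow of the surface is ergodic, and there is a sequence of normalized eigenfunctions
of the Laplacian which is not equidistributed -/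
def Concl : Prop :=
  ∃ (M P : Type) (_ : MetricSpace M) (_ : CompactSpace M) (_ : ConnectedSpace M)
    (_ : MeasurableSpace M) (_ : BorelSpace M) (_ : MetricSpace P) (_ : CompactSpace P)
    (_ : MeasurableSpace P) (_ : BorelSpace P) (Ω : Set ℂ) (φ : ℂ → ℝ) (pr : ℂ → M) (q : Y → P)
    (Fl : ℝ → Y → Y) (m : Measure P) (D : Data M) (μ : Measure M),
    IsUT Ω φ pr q ∧ IsGeo Ω φ Fl ∧ IsLiou Ω φ q m ∧ D.IsSurf μ ∧ Compat D Ω φ pr ∧ Erg Ω q m Fl ∧
    ∃ (u : ℕ → M → ℝ) (lam : ℕ → ℝ), Tendsto lam atTop atTop ∧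
      (∀ j, D.IsEig μ (lam j) (u j) ∧ ∫ x, (u j x) ^ 2 ∂μ = 1) ∧
      ∃ O : Set M, IsOpen O ∧ μ (frontier O) = 0 ∧
        ¬ Tendsto (fun j => ∫ x in O, (u j x) ^ 2 ∂μ) atTop (𝓝 (μ.real O / μ.real univ))

theorem final (hProf : StProf) (hAct : StActE) (hPhi1 : StPhi1) (hPhi2 : StPhi2) (hQM : StQM)
    (hQP : StQP) (hQU : StQU) (hConj : StConj) (hClsE : StClsE) (hSig : StSigEx) (hHex : StHex)
    (hArea : StAreaEx) (hData : StData) (hLiou : StLiouEx) (hGeo : StGeoEx) (hUTs : StUTs)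
    (hFam : StFam) (hErg : StErg) : Concl := by
  obtain ⟨g, c1, C, hP⟩ := hProf
  have hA : Act Gq Om ac := hAct
  obtain ⟨hI, hconj⟩ := hPhi2 g c1 C hP
  obtain ⟨M, iM, cM, pr, hpr⟩ := hQM Gq Om ac hA
  obtain ⟨P, iP, cP, q, hq⟩ := hQP Gq Om ac hA (fun γ z hz => (hI.2 γ z hz).1)
  letI : MeasurableSpace M := borel M
  haveI : BorelSpace M := ⟨rfl⟩
  letI : MeasurableSpace P := borel P
  haveI : BorelSpace P := ⟨rfl⟩
  have hUT : IsUT Om (phi g c1) pr q := hQU Gq Om ac (phi g c1) M P pr q hA hI hpr hq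
  obtain ⟨C', hC⟩ := hClsE g c1 C hP M P pr q hpr hUT
  obtain ⟨σ, hσ⟩ := hSig Gq M Om ac (phi g c1) pr hpr hConj.1 hconj (fun γ => hConj.2 γ)
  obtain ⟨δ'', h, hC2, hhc, hh0, hhσ, hhs, hhz, hhne⟩ :=
    hHex M P Om (phi g c1) pr q _ _ _ _ _ g σ hUT hC hσ
  obtain ⟨μ, hμ⟩ := hArea M P Om (phi g c1) pr q hUT
  obtain ⟨D, Φ, hS, hComp, hCyl, hΦ⟩ :=
    hData M P Om (phi g c1) pr q μ _ _ _ _ _ g σ hUT hC2 hμ hσ
  have hmain := main tFin tConf tEig tCore tPack M μ D hS _ Φ σ hCyl h hhc hh0 hhσ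
    (fun z hz => by
      rw [hΦ z hz]
      refine hhz z ⟨?_, ?_⟩
      · have := hC2.posδ; have := hC2.ltδ; have := hz.1; linarith
      · have := hC2.posδ; have := hC2.ltδ; have := hz.2; linarith) hhne
  obtain ⟨s0, hs0, hfam⟩ := hFam M P Om (phi g c1) pr q _ _ _ _ _ g hUT hC2 h hhs hhz
  have hex : ∃ s : ℝ, |s| < s0 ∧ ((D.conf fun x => Real.exp (s * h x)).IsSurf
      (wm μ fun x => Real.exp (s * h x)) ∧
      ∃ (u : ℕ → M → ℝ) (lam : ℕ → ℝ), Tendsto lam atTop atTop ∧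
        (∀ j, (D.conf fun x => Real.exp (s * h x)).IsEig (wm μ fun x => Real.exp (s * h x))
          (lam j) (u j) ∧ ∫ x, (u j x) ^ 2 ∂(wm μ fun x => Real.exp (s * h x)) = 1) ∧
        ∃ O : Set M, IsOpen O ∧ (wm μ fun x => Real.exp (s * h x)) (frontier O) = 0 ∧
          ¬ Tendsto (fun j => ∫ x in O, (u j x) ^ 2 ∂(wm μ fun x => Real.exp (s * h x))) atTop
            (𝓝 ((wm μ fun x => Real.exp (s * h x)).real O /
              (wm μ fun x => Real.exp (s * h x)).real univ))) := by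
    by_contra hcon
    have hnull : volume {s : ℝ | |s| < s0} = 0 := by
      refine measure_mono_null ?_ hmain
      intro s hs hgood
      exact hcon ⟨s, hs, hgood⟩
    have hpos : 0 < volume {s : ℝ | |s| < s0} := by
      refine IsOpen.measure_pos volume ?_ ⟨0, by simpa using hs0⟩
      exact isOpen_lt continuous_abs continuous_const
    exact absurd hnull hpos.ne'
  obtain ⟨s, hs, hsurf, hconc⟩ := hex
  obtain ⟨hUTs1, hComps⟩ := hUTs M P Om (phi g c1) pr q hUT h hhs s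
  obtain ⟨C2, hCs⟩ := hfam s hs
  have hIs : Inva Om (fun z => phi g c1 z + s / 2 * h (pr z)) ac := by
    refine ⟨hUTs1.smooth, fun γ z hz => ⟨(hI.2 γ z hz).1, ?_⟩⟩
    have h1 := (hI.2 γ z hz).2
    have h2 : pr (ac γ z) = pr z := by
      have := (hpr.rel z hz (ac γ z) (hA.maps γ z hz)).2 ⟨γ, rfl⟩
      exact this.symm
    simp only [h2]
    linarith
  obtain ⟨Fl, hFl⟩ := hGeo Gq Om ac _ hA hIs
  obtain ⟨m, hm⟩ := hLiou M P Om _ pr q hUTs1
  have hE := hErg M P Om _ pr q m Fl _ _ _ _ _ g hUTs1 hm hFl hCs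
  have hne : Nonempty M := by
    obtain ⟨z, hz⟩ := hA.ne
    exact ⟨pr z⟩
  have : ConnectedSpace M := { toPreconnectedSpace := ⟨hpr.conn⟩, toNonempty := hne }
  exact ⟨M, P, iM, cM, inferInstance, inferInstance, inferInstance, iP, cP, inferInstance,
    inferInstance, Om, _, pr, q, Fl, m, _, _, hUTs1, hFl, hm, hsurf, hComps D hComp, hE, hconc⟩

end Pool.Agent.Y262.EX
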